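import Pool.Agent.H83.G.Targets1

/-!
Theorem G (MP_ee74d2_an), module LOI: change of variables by the Lorentz maps.
-/

set_option autoImplicit false

namespace Pool.Agent.H59.G

open MeasureTheory Set
open scoped ENNReal NNReal RealInnerProductSpace
open Pool.Agent.H83.G

section shears

variable {α β : Type*} [MeasureSpace α] [MeasureSpace β] [SFinite (volume : Measure α)]
  [SFinite (volume : Measure β)]

theorem shearR [AddGroup β] [MeasurableAdd₂ β] [(volume : Measure β).IsAddRightInvariant]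
    (g : α → β) (hg : Measurable g) :
    MeasurePreserving (fun p : α × β => (p.1, p.2 + g p.1)) volume volume := by
  rw [Measure.volume_eq_prod]
  refine MeasurePreserving.skew_product (g := fun a b => b + g a) (MeasurePreserving.id _) ?_ ?_
  · exact measurable_snd.add (hg.comp measurable_fst)
  · exact Filter.Eventually.of_forall fun a => map_add_right_eq_self _ _

theorem shearL [AddGroup α] [MeasurableAdd₂ α] [(volume : Measure α).IsAddRightInvariant]
    (g : β → α) (hg : Measurable g) :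
    MeasurePreserving (fun p : α × β => (p.1 + g p.2, p.2)) volume volume := by
  have h1 : MeasurePreserving (Prod.swap : α × β → β × α) volume volume := by
    rw [Measure.volume_eq_prod, Measure.volume_eq_prod]; exact Measure.measurePreserving_swap
  have h2 : MeasurePreserving (Prod.swap : β × α → α × β) volume volume := by
    rw [Measure.volume_eq_prod, Measure.volume_eq_prod]; exact Measure.measurePreserving_swap
  exact h2.comp ((shearR g hg).comp h1)

end shears

theorem map_dil (m : ℕ) (s : ℝ) (hs : 0 < s) :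
    Measure.map (fun z : Z m => ((z.1, s • z.2.1, s ^ 2 * z.2.2) : Z m)) volume =
      ENNReal.ofReal ((s⁻¹) ^ (m + 2)) • (volume : Measure (Z m)) := by
  have h1 : Measure.map (fun x : E m => s • x) volume =
      ENNReal.ofReal ((s⁻¹) ^ m) • (volume : Measure (E m)) := by
    rw [Measure.map_addHaar_smul _ hs.ne', finrank_euclideanSpace_fin, abs_of_pos (by positivity),
      inv_pow]
  have h2 : Measure.map (fun x : ℝ => s ^ 2 * x) volume =
      ENNReal.ofReal ((s⁻¹) ^ 2) • (volume : Measure ℝ) := by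
    rw [Real.map_volume_mul_left (by positivity), abs_of_pos (by positivity), inv_pow]
  have h3 : Measure.map (Prod.map (fun x : E m => s • x) (fun x : ℝ => s ^ 2 * x)) volume =
      ENNReal.ofReal ((s⁻¹) ^ (m + 2)) • (volume : Measure (E m × ℝ)) := by
    rw [Measure.volume_eq_prod, ← Measure.map_prod_map _ _ (by fun_prop) (by fun_prop), h1, h2,
      Measure.prod_smul_left, Measure.prod_smul_right, smul_smul,
      ← ENNReal.ofReal_mul (by positivity), ← pow_add]
  have h4 : Measure.map (Prod.map (fun x : ℝ => x)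
      (Prod.map (fun x : E m => s • x) (fun x : ℝ => s ^ 2 * x))) volume =
      ENNReal.ofReal ((s⁻¹) ^ (m + 2)) • (volume : Measure (Z m)) := by
    rw [Measure.volume_eq_prod ℝ (E m × ℝ), ← Measure.map_prod_map _ _ (by fun_prop)
      (by fun_prop), h3, Measure.prod_smul_right, Measure.map_id']
  exact h4

theorem map_Lo (m : ℕ) (η : E m) (s : ℝ) (hs : 0 < s) :
    Measure.map (Lo η s) volume = ENNReal.ofReal ((s⁻¹) ^ (m + 2)) • (volume : Measure (Z m)) := by
  have h1 : MeasurePreserving (fun z : Z m => ((z.1 + (⟪z.2.1, η⟫ + z.2.2 * ‖η‖ ^ 2), z.2) : Z m))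
      volume volume := shearL (fun p : E m × ℝ => ⟪p.1, η⟫ + p.2 * ‖η‖ ^ 2) (by fun_prop)
  have h2 : MeasurePreserving (fun z : Z m => ((z.1, z.2.1 + (2 * z.2.2) • η, z.2.2) : Z m))
      volume volume := by
    have h : MeasurePreserving (fun p : E m × ℝ => (p.1 + (2 * p.2) • η, p.2)) volume volume :=
      shearL (fun p : ℝ => (2 * p) • η) (by fun_prop)
    exact (MeasurePreserving.id (volume : Measure ℝ)).prod h
  have h3 := h2.comp h1
  have h4 : Lo η s = (fun z : Z m => ((z.1, s • z.2.1, s ^ 2 * z.2.2) : Z m)) ∘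
      ((fun z : Z m => ((z.1, z.2.1 + (2 * z.2.2) • η, z.2.2) : Z m)) ∘
      (fun z : Z m => ((z.1 + (⟪z.2.1, η⟫ + z.2.2 * ‖η‖ ^ 2), z.2) : Z m))) := by
    funext z
    simp only [Lo, Function.comp_apply, add_assoc]
  rw [h4, ← Measure.map_map (by fun_prop) h3.measurable, h3.map_eq]
  exact map_dil m s hs

theorem map_Ld (m : ℕ) (η : E m) (s : ℝ) (hs : 0 < s) :
    Measure.map (Ld η s) volume = ENNReal.ofReal ((s⁻¹) ^ (m + 2)) • (volume : Measure (Z m)) := by
  have h1 : MeasurePreserving (fun z : Z m => ((z.1, z.2.1, z.2.2 + 2 * ⟪z.2.1, η⟫) : Z m))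
      volume volume := by
    have h : MeasurePreserving (fun p : E m × ℝ => (p.1, p.2 + 2 * ⟪p.1, η⟫)) volume volume :=
      shearR (fun x : E m => 2 * ⟪x, η⟫) (by fun_prop)
    exact (MeasurePreserving.id (volume : Measure ℝ)).prod h
  have : (volume : Measure (E m × ℝ)).IsAddHaarMeasure := by
    rw [Measure.volume_eq_prod]; infer_instance
  have h2 : MeasurePreserving (fun z : Z m => ((z.1, z.2 + (z.1 • η, z.1 * ‖η‖ ^ 2)) : Z m))
      volume volume := shearR (fun a : ℝ => ((a • η, a * ‖η‖ ^ 2) : E m × ℝ)) (by fun_prop)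
  have h3 := h2.comp h1
  have h4 : Ld η s = ((fun z : Z m => ((z.1, z.2 + (z.1 • η, z.1 * ‖η‖ ^ 2)) : Z m)) ∘
      (fun z : Z m => ((z.1, z.2.1, z.2.2 + 2 * ⟪z.2.1, η⟫) : Z m))) ∘
      (fun z : Z m => ((z.1, s • z.2.1, s ^ 2 * z.2.2) : Z m)) := by
    funext z
    simp only [Ld, Function.comp_apply, Prod.mk_add_mk, real_inner_smul_left, mul_assoc]
  rw [h4, ← Measure.map_map h3.measurable (by fun_prop), map_dil m s hs, Measure.map_smul,
    h3.map_eq]

theorem smooth_in (m : ℕ) (η : E m) : ContDiff ℝ (⊤ : ℕ∞) (fun z : Z m => ⟪z.2.1, η⟫) :=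
  ContDiff.inner ℝ contDiff_snd.fst contDiff_const

theorem smooth_Lo (m : ℕ) (η : E m) (s : ℝ) : ContDiff ℝ (⊤ : ℕ∞) (Lo η s) := by
  unfold Lo
  refine ContDiff.prodMk ((contDiff_fst.add (smooth_in m η)).add ?_) (ContDiff.prodMk ?_ ?_)
  all_goals fun_prop

theorem smooth_Ld (m : ℕ) (η : E m) (s : ℝ) : ContDiff ℝ (⊤ : ℕ∞) (Ld η s) := by
  unfold Ld
  refine ContDiff.prodMk contDiff_fst (ContDiff.prodMk ?_ (ContDiff.add (ContDiff.add ?_ ?_) ?_))
  · fun_prop
  · fun_prop
  · exact contDiff_const.mul (smooth_in m η)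
  · fun_prop

theorem pf_LOI (hLOA : T_LOA) : T_LOI := by
  intro m η s hs
  obtain ⟨-, -, -, hc, hi, -⟩ := hLOA m
  have e1 : η + s • (-(s⁻¹ • η)) = 0 := by
    rw [smul_neg, smul_smul, mul_inv_cancel₀ hs.ne', one_smul, add_neg_cancel]
  have e2 : -(s⁻¹ • η) + s⁻¹ • η = 0 := neg_add_cancel _
  have e3 : s * s⁻¹ = 1 := mul_inv_cancel₀ hs.ne'
  have e4 : s⁻¹ * s = 1 := inv_mul_cancel₀ hs.ne'
  have mLo : ∀ (η : E m) (s : ℝ), Measurable (Lo η s) := fun η s => (smooth_Lo m η s).continuous.measurable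
  have mLd : ∀ (η : E m) (s : ℝ), Measurable (Ld η s) := fun η s => (smooth_Ld m η s).continuous.measurable
  let eo : Z m ≃ᵐ Z m :=
    { toFun := Lo η s
      invFun := Lo (-(s⁻¹ • η)) s⁻¹
      left_inv := fun z => by rw [(hc _ _ _ _ z).1, e1, e3, (hi z).1]
      right_inv := fun z => by rw [(hc _ _ _ _ z).1, e2, e4, (hi z).1]
      measurable_toFun := mLo _ _
      measurable_invFun := mLo _ _ }
  let ed : Z m ≃ᵐ Z m :=
    { toFun := Ld η s
      invFun := Ld (-(s⁻¹ • η)) s⁻¹
      left_inv := fun z => by rw [(hc _ _ _ _ z).2, e2, e4, (hi z).2]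
      right_inv := fun z => by rw [(hc _ _ _ _ z).2, e1, e3, (hi z).2]
      measurable_toFun := mLd _ _
      measurable_invFun := mLd _ _ }
  have ho : Measure.map eo volume = ENNReal.ofReal ((s⁻¹) ^ (m + 2)) • (volume : Measure (Z m)) :=
    map_Lo m η s hs
  have hd : Measure.map ed volume = ENNReal.ofReal ((s⁻¹) ^ (m + 2)) • (volume : Measure (Z m)) :=
    map_Ld m η s hs
  have hp : (0 : ℝ) ≤ (s⁻¹) ^ (m + 2) := by positivity
  refine ⟨fun F => ?_, fun F => ?_, fun F => ?_, fun F => ?_, smooth_Lo m η s, smooth_Ld m η s⟩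
  · have h := lintegral_map_equiv (μ := volume) F eo
    rw [ho, lintegral_smul_measure] at h
    exact h.symm
  · have h := lintegral_map_equiv (μ := volume) F ed
    rw [hd, lintegral_smul_measure] at h
    exact h.symm
  · have h := integral_map_equiv (μ := volume) ed F
    rw [hd, integral_smul_measure, ENNReal.toReal_ofReal hp, Complex.real_smul] at h
    exact h.symm
  · have h := integral_map_equiv (μ := volume) ed F
    rw [hd, integral_smul_measure, ENNReal.toReal_ofReal hp, smul_eq_mul] at h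
    exact h.symm

end Pool.Agent.H59.G
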