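import Pool.Agent.H81.GT.TargetsT

/-!
Theorem G (MP_ee74d2_an), module T_POW: growth of the weight.
-/

set_option autoImplicit false

namespace Pool.Agent.H59.G

open MeasureTheory Set
open scoped ENNReal NNReal RealInnerProductSpace
open Pool.Agent.H83.LS Pool.Agent.H81.GT
open Pool.Agent.H83.G (Z)

theorem pow_key (a τ S W Y Q : ℝ) (hτ : 0 ≤ τ) (ha : 0 ≤ a) (hS : 1 ≤ S) (hW : 1 ≤ W)
    (hQ : Q ≤ W) (hY : Y ≤ 16 * W * (S + a)) (h : a ^ 2 ≤ τ ^ 2 + Y / 3 + Q) :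
    a ^ 2 ≤ 2 * τ ^ 2 + 12 * W * S + 38 * W ^ 2 ∧ a ≤ 8 * W * (τ + S) ∧
      Y ≤ 144 * W ^ 2 * (S + τ) := by
  have h1 : a ^ 2 ≤ 2 * τ ^ 2 + 12 * W * S + 38 * W ^ 2 := by
    nlinarith [sq_nonneg (a - 6 * W), mul_nonneg (sub_nonneg.2 hW) (sub_nonneg.2 hW),
      mul_nonneg ha (sub_nonneg.2 hW), mul_nonneg (zero_le_one.trans hS) (zero_le_one.trans hW),
      mul_nonneg ha (zero_le_one.trans hW)]
  have h2 : a ≤ 8 * W * (τ + S) := by
    refine abs_le_of_sq_le_sq' ?_ (by positivity) |>.2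
    have hWS : W ≤ W * S := le_mul_of_one_le_right (by linarith) hS
    have hWS1 : 1 ≤ W * S := hW.trans hWS
    have e1 : W * S ≤ (W * S) ^ 2 := by nlinarith
    have e2 : W ^ 2 ≤ (W * S) ^ 2 := pow_le_pow_left₀ (by linarith) hWS 2
    have e3 : τ ^ 2 ≤ (W * τ) ^ 2 :=
      pow_le_pow_left₀ hτ (le_mul_of_one_le_left hτ hW) 2
    have e4 : 0 ≤ (W * τ) * (W * S) := by positivity
    nlinarith
  refine ⟨h1, h2, hY.trans ?_⟩
  have e5 : S ≤ W * (τ + S) := by nlinarith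
  nlinarith

theorem pf_POW : T_POW := by
  intro n
  refine ⟨200, by norm_num, fun s z θ hs hs1 hθ => ?_⟩
  obtain ⟨v, y, w⟩ := z
  set Y := Yz ((v, y, w) : Z n) θ with hYdef
  set Q := Qz ((v, y, w) : Z n) θ with hQdef
  have hsg : 0 < sg s w := by unfold sg; positivity
  have hWd : Wz s ((v, y, w) : Z n) θ = 1 + |Q| + sg s w * ‖Y‖ := rfl
  set W := Wz s ((v, y, w) : Z n) θ with hW0
  have htz : tz ((v, y, w) : Z n) = v + w := rfl
  rw [htz]
  have hQ' : Q = v + ⟪y, θ⟫ + w * ‖θ‖ ^ 2 := rfl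
  have hY' : Y = y + (2 * w) • θ := rfl
  have hsY : 0 ≤ sg s w * ‖Y‖ := by positivity
  have hW1 : 1 ≤ W := by rw [hWd]; linarith [abs_nonneg Q]
  have hQW : |Q| ≤ W := by rw [hWd]; linarith
  have hYW : sg s w * ‖Y‖ ≤ W := by rw [hWd]; linarith [abs_nonneg Q]
  -- the square roots
  have ha : 0 ≤ Real.sqrt |w| := Real.sqrt_nonneg _
  have ha2 : Real.sqrt |w| ^ 2 = |w| := Real.sq_sqrt (abs_nonneg w)
  have hτ : 0 ≤ Real.sqrt |v + w| := Real.sqrt_nonneg _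
  have hτ2 : Real.sqrt |v + w| ^ 2 = |v + w| := Real.sq_sqrt (abs_nonneg _)
  have hS : 1 ≤ s⁻¹ := (one_le_inv₀ hs).2 hs1
  -- the bound of `Y`
  have hr : Real.sqrt (1 + s ^ 2 * |w|) ≤ 1 + s * Real.sqrt |w| := by
    rw [Real.sqrt_le_left (by positivity), add_sq, mul_pow, ha2]
    have : 0 ≤ 2 * 1 * (s * Real.sqrt |w|) := by positivity
    linarith
  have hYb : ‖Y‖ ≤ 16 * W * (s⁻¹ + Real.sqrt |w|) := by
    have h0 : 0 < 16 * Real.sqrt (1 + s ^ 2 * |w|) := by positivity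
    have h1 : s * ‖Y‖ ≤ W * (16 * Real.sqrt (1 + s ^ 2 * |w|)) := by
      have h2 := hYW
      unfold sg at h2
      rwa [div_mul_eq_mul_div, div_le_iff₀ h0] at h2
    have h3 : s * ‖Y‖ ≤ s * (16 * W * (s⁻¹ + Real.sqrt |w|)) := by
      have h4 : s * (16 * W * (s⁻¹ + Real.sqrt |w|)) = W * (16 * (1 + s * Real.sqrt |w|)) := by
        have : s * s⁻¹ = 1 := mul_inv_cancel₀ hs.ne'
        linear_combination 16 * W * this
      rw [h4]
      refine h1.trans (mul_le_mul_of_nonneg_left ?_ (by linarith))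
      linarith
    exact le_of_mul_le_mul_left h3 hs
  -- the identity
  have hid : w * (1 + ‖θ‖ ^ 2) = (v + w) + ⟪Y, θ⟫ - Q := by
    rw [hQ', hY', inner_add_left, real_inner_smul_left, real_inner_self_eq_norm_sq]
    ring
  have hw : |w| ≤ |v + w| + ‖Y‖ / 3 + |Q| := by
    have h1 : |w| ≤ |w * (1 + ‖θ‖ ^ 2)| := by
      rw [abs_mul, abs_of_nonneg (by positivity : (0 : ℝ) ≤ 1 + ‖θ‖ ^ 2)]
      exact le_mul_of_one_le_right (abs_nonneg w) (by linarith [sq_nonneg ‖θ‖])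
    have h2 : |⟪Y, θ⟫| ≤ ‖Y‖ / 3 := by
      refine (abs_real_inner_le_norm Y θ).trans ?_
      have := mul_le_mul_of_nonneg_left hθ (norm_nonneg Y)
      linarith
    rw [hid] at h1
    have h3 := abs_sub (v + w + ⟪Y, θ⟫) Q
    have h4 := abs_add_le (v + w) ⟪Y, θ⟫
    linarith
  obtain ⟨k1, k2, k3⟩ := pow_key (Real.sqrt |w|) (Real.sqrt |v + w|) s⁻¹ W ‖Y‖ |Q| hτ ha hS hW1
    hQW hYb (by rw [ha2, hτ2]; exact hw)
  rw [ha2, hτ2] at k1
  have hW2 : W ≤ W ^ 2 := le_self_pow₀ hW1 two_ne_zero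
  have hT1 : 1 ≤ 1 + |v + w| + s⁻¹ := by linarith [abs_nonneg (v + w)]
  set T := 1 + |v + w| + s⁻¹ with hT
  constructor
  · -- first bound
    have hST : s⁻¹ ≤ T := by rw [hT]; linarith [abs_nonneg (v + w)]
    have htT : |v + w| ≤ T := by rw [hT]; linarith
    have hW0' : 0 ≤ W ^ 2 := by positivity
    have hw2 : |w| ≤ 38 * (T * W ^ 2) := by
      have e1 : |v + w| ≤ W ^ 2 * |v + w| :=
        le_mul_of_one_le_left (abs_nonneg _) (hW1.trans hW2)
      have e2 : W * s⁻¹ ≤ W ^ 2 * s⁻¹ := mul_le_mul_of_nonneg_right hW2 (by linarith)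
      have e3 : W ^ 2 * (2 * |v + w| + 12 * s⁻¹ + 38) ≤ W ^ 2 * (38 * T) := by
        refine mul_le_mul_of_nonneg_left ?_ hW0'
        rw [hT]
        linarith [abs_nonneg (v + w)]
      linarith
    have ha3 : Real.sqrt |w| ≤ 7 * (W * T) := by
      refine abs_le_of_sq_le_sq' ?_ (by positivity) |>.2
      rw [ha2]
      have e1 : T ≤ T ^ 2 := le_self_pow₀ hT1 two_ne_zero
      have e2 : T * W ^ 2 ≤ T ^ 2 * W ^ 2 := mul_le_mul_of_nonneg_right e1 hW0'
      have e3 : 0 ≤ T ^ 2 * W ^ 2 := by positivity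
      have e4 : (7 * (W * T)) ^ 2 = 49 * (T ^ 2 * W ^ 2) := by ring
      rw [e4]
      linarith
    have hYT : ‖Y‖ ≤ 128 * (T * W ^ 2) := by
      refine hYb.trans ?_
      have e1 : s⁻¹ ≤ W * T := hST.trans (le_mul_of_one_le_left (by linarith) hW1)
      have e2 : 16 * W * (s⁻¹ + Real.sqrt |w|) ≤ 16 * W * (8 * (W * T)) :=
        mul_le_mul_of_nonneg_left (by linarith) (by linarith)
      refine e2.trans (le_of_eq ?_)
      ring
    have hy : ‖y‖ ≤ 154 * (T * W ^ 2) := by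
      have e1 : y = Y - (2 * w) • θ := by rw [hY', add_sub_cancel_right]
      have e2 : ‖(2 * w) • θ‖ ≤ 26 * (T * W ^ 2) := by
        rw [norm_smul, Real.norm_eq_abs, abs_mul, abs_of_pos (by norm_num : (0 : ℝ) < 2)]
        have e3 : 2 * |w| * ‖θ‖ ≤ 2 * |w| * (1 / 3) :=
          mul_le_mul_of_nonneg_left hθ (by positivity)
        have e4 : 0 ≤ T * W ^ 2 := by positivity
        linarith
      rw [e1]
      exact (norm_sub_le _ _).trans (by linarith)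
    have hv : |v| ≤ 39 * (T * W ^ 2) := by
      have e1 : v = (v + w) - w := by ring
      have e2 := abs_sub (v + w) w
      rw [← e1] at e2
      have e3 : |v + w| ≤ T * W ^ 2 :=
        htT.trans (le_mul_of_one_le_right (by linarith) (hW1.trans hW2))
      linarith
    have h1T : 1 ≤ T * W ^ 2 := hT1.trans (le_mul_of_one_le_right (by linarith) (hW1.trans hW2))
    have hz : ‖((v, y, w) : Z n)‖ ≤ 154 * (T * W ^ 2) := by
      rw [Prod.norm_def, Prod.norm_def]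
      refine max_le ?_ (max_le hy ?_)
      · rw [Real.norm_eq_abs]; linarith
      · rw [Real.norm_eq_abs]; linarith
    have e5 : 200 * T * W ^ 2 = 200 * (T * W ^ 2) := by ring
    rw [e5]
    linarith
  · refine k3.trans ?_
    have e1 : 0 ≤ W ^ 2 * (s⁻¹ + Real.sqrt |v + w|) := by positivity
    have e2 : 144 * W ^ 2 * (s⁻¹ + Real.sqrt |v + w|) =
      144 * (W ^ 2 * (s⁻¹ + Real.sqrt |v + w|)) := by ring
    have e3 : 200 * W ^ 2 * (s⁻¹ + Real.sqrt |v + w|) =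
      200 * (W ^ 2 * (s⁻¹ + Real.sqrt |v + w|)) := by ring
    rw [e2, e3]
    linarith

end Pool.Agent.H59.G
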